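import Mathlib
import Pool.Agent.H34.Warm

namespace Pool.Agent.Results.MP_64e474_co.Rook
open Pool.Agent.H34.WarmDefs

/-- The `4 × 4` rook's graph `K_4 □ K_4` violates `w(H) ≤ conn[N(H)] + 3`. -/
theorem result :
    conn (nbhdReal ((⊤ : SimpleGraph (Fin 4)) □ (⊤ : SimpleGraph (Fin 4)))) + 3 <
      warmth ((⊤ : SimpleGraph (Fin 4)) □ (⊤ : SimpleGraph (Fin 4))) :=
  Pool.Agent.H34.Warm.main

end Pool.Agent.Results.MP_64e474_co.Rook
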